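import Pool.Agent.IndSat.Odd

set_option autoImplicit false

namespace Pool.Agent.Results.MP_cdca5f_co.OddMatchings

/-- `G` is `H`-induced-saturated: `G` has no induced copy of `H`, and every graph `G'` on the same
vertex set that differs from `G` in exactly one pair `e` has an induced copy of `H`. -/
def InducedSaturated {n m : ℕ} (H : SimpleGraph (Fin n)) (G : SimpleGraph (Fin m)) : Prop :=
  IsEmpty (H ↪g G) ∧
    ∀ G' : SimpleGraph (Fin m),
      (∃ e : Sym2 (Fin m), ∀ f : Sym2 (Fin m),
        ((f ∈ G.edgeSet ↔ f ∈ G'.edgeSet) ↔ f ≠ e)) →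
      Nonempty (H ↪g G')

/-- `H` has a finite `H`-induced-saturated graph on at least two (and at least `n`) vertices. -/
def HasFiniteSaturated {n : ℕ} (H : SimpleGraph (Fin n)) : Prop :=
  ∃ m : ℕ, 2 ≤ m ∧ n ≤ m ∧ ∃ G : SimpleGraph (Fin m), InducedSaturated H G

/-- The number of perfect matchings of a graph. -/
noncomputable def numPM {n : ℕ} (H : SimpleGraph (Fin n)) : ℕ :=
  Nat.card {M : H.Subgraph // M.IsPerfectMatching}

/-- A graph with an odd number of perfect matchings, of minimum degree at least two and in which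
the neighbourhoods of any two vertices differ in at least three vertices, has a finite
induced-saturated graph as soon as adding some edge makes the number of perfect matchings even, and
also as soon as no two vertices have two common neighbours. -/
theorem result {n : ℕ} (hn : 1 ≤ n) (H : SimpleGraph (Fin n))
    (hdeg : ∀ v, 2 ≤ (H.neighborSet v).ncard)
    (hdiff : ∀ u v, u ≠ v → 3 ≤ (symmDiff (H.neighborSet u) (H.neighborSet v)).ncard)
    (hodd : Odd (numPM H))
    (h : (∃ u v, u ≠ v ∧ ¬ H.Adj u v ∧ Even (numPM (H ⊔ SimpleGraph.edge u v))) ∨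
      (∀ u v, u ≠ v → (H.neighborSet u ∩ H.neighborSet v).ncard ≤ 1)) :
    HasFiniteSaturated H := by
  classical
  have : Nonempty (Fin n) := ⟨⟨0, hn⟩⟩
  have key : ∃ d, IndSat.Sat H (IndSat.Sp d) ∧
      Fintype.card (Fin n) ≤ Fintype.card {x : IndSat.W d // x ≠ 0} := by
    rcases h with ⟨u, v, huv, hadj, heven⟩ | hc
    · refine IndSat.odd_criterion H hdeg hdiff hodd (K := H ⊔ SimpleGraph.edge u v) huv hadj ?_
        heven
      intro a b hab
      simp only [SimpleGraph.sup_adj, SimpleGraph.adj_edge]
      constructor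
      · intro h1 h2
        have h3 : ¬ H.Adj a b := by
          rw [← SimpleGraph.mem_edgeSet, h2, SimpleGraph.mem_edgeSet]; exact hadj
        exact h3 (h1.2 (Or.inr ⟨h2.symm, hab⟩))
      · intro h1
        exact ⟨fun h2 => Or.inl h2, fun h2 => h2.elim id (fun h3 => absurd h3.1.symm h1)⟩
    · exact IndSat.c4free_criterion H hdeg hdiff hodd hc
  obtain ⟨d, hd, hc⟩ := key
  rw [Fintype.card_fin] at hc
  have h2n : 2 ≤ n := by
    have h1 := hdeg ⟨0, hn⟩
    have h2 := Set.ncard_le_ncard (Set.subset_univ (H.neighborSet ⟨0, hn⟩))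
    rw [Set.ncard_univ, Nat.card_eq_fintype_card, Fintype.card_fin] at h2
    omega
  exact ⟨_, le_trans h2n hc, hc, _, hd.transport (Fintype.equivFin _).symm⟩

end Pool.Agent.Results.MP_cdca5f_co.OddMatchings
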